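import Pool.Agent.K1H57.CCGroup

/-!
# Under Martin's axiom countably compact subgroups of `K ^ ω₁` contain Cantor sets

Martin's axiom for `ℵ₁` dense sets, which is forced by a preordered set of conditions, implies that
every infinite countably compact subgroup of `𝕋 ^ ω₁`, or of `ℤ(p) ^ ω₁` for a prime `p`, contains
an injective continuous image of `2 ^ ℕ`. So the existence of a dense countably compact subgroup
all of whose compact subsets are countable is not a theorem of ZFC.

The proof: the axiom gives a nontrivial convergent sequence in the subgroup, hence a sequence of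
nonzero elements `g n` converging to `0` (which is in the subgroup because of countable
compactness), and a function dominating the moduli of convergence of all coordinates. Along a
sequence of indices which grows faster than this function all subseries of `∑ g n` converge; if it
grows fast enough, different subseries have different sums.

The forcing language is the one of `Pool.Agent.Helper669.Forcing`: a sentence is the set of the
conditions which force it, `fnot`, `fand`, `fall` are the primitive connectives and `fimp`, `fex`
are defined from them classically; a name for a subset of a ground model set `X` is a map sending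
`x : X` to a set of conditions, and `meets N` says that the generic filter meets `N`. The sentence
`MartinHolds P Om1` is the translation of the proposition `MartinFor Om1` (both are in
`Pool.Agent.W684.FM.Defs`), which is equivalent to `MartinAxiomAleph1`, Martin's axiom for `ℵ₁`
dense sets. `Om1` is the set of the countable ordinals, so that `Om1 → K` is `K ^ ω₁`.
-/

set_option autoImplicit false

namespace Pool.Agent.Results.MP_e377f6_gt.NotATheoremOfZFC

open Cardinal Pool.Agent.Helper669.Forcing Pool.Agent.W684.FM Pool.Agent.W684

/-- `K ^ ω₁` has a dense countably compact subgroup all of whose compact subsets are countable. -/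
def HasSubgroup (K : Type) [AddCommGroup K] [TopologicalSpace K] : Prop :=
  ∃ D : AddSubgroup (Om1 → K), Dense (D : Set (Om1 → K)) ∧
    IsCountablyCompact (D : Set (Om1 → K)) ∧
    ∀ C ⊆ (D : Set (Om1 → K)), IsCompact C → C.Countable

/-- Every infinite countably compact subgroup of `K ^ ω₁` contains the image of the Cantor space
`2 ^ ℕ` under an injective continuous map. -/
def ContainCantorSets (K : Type) [AddCommGroup K] [TopologicalSpace K] : Prop :=
  ∀ D : AddSubgroup (Om1 → K), (D : Set (Om1 → K)).Infinite →
    IsCountablyCompact (D : Set (Om1 → K)) →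
    ∃ Φ : (ℕ → Bool) → Om1 → K, Continuous Φ ∧ Function.Injective Φ ∧ ∀ A, Φ A ∈ D

theorem not_hasSubgroup {K : Type} [AddCommGroup K] [TopologicalSpace K] [T2Space K]
    [Nontrivial K] (h : ContainCantorSets K) : ¬ HasSubgroup K := by
  rintro ⟨D, hD, hcc, hC⟩
  obtain ⟨Φ, h1, h2, h3⟩ := h D (Pool.Agent.K1H57.CCGroup.infinite_of_dense hD) hcc
  exact Pool.Agent.K1H57.CCGroup.uncountable_range Φ h2 (hC (Set.range Φ)
    (by rintro _ ⟨A, rfl⟩; exact h3 A) (isCompact_range h1))

/-- (1) There is a preordered set `P` of forcing conditions such that every condition forces that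
all cardinals of the ground model are cardinals, that `ω₁` is preserved and that Martin's axiom for
`ℵ₁` dense sets holds. (2) The two forms of this axiom are equivalent. (3) It implies that, for
`K = 𝕋` and for `K = ℤ(p)`, every infinite countably compact subgroup of `K ^ ω₁` contains a Cantor
set and there is no dense countably compact subgroup of `K ^ ω₁` all of whose compact subsets are
countable. -/
theorem result :
    (∃ (P : Type) (_ : Preorder P), Nonempty P ∧ ∀ p : P,
      p ∈ CardinalsPreserved.{0, 0} P ∧ p ∈ OmegaOnePreserved P ∧ p ∈ MartinHolds P Om1) ∧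
    (MartinFor Om1 ↔ MartinAxiomAleph1) ∧
    (MartinAxiomAleph1 →
      (ContainCantorSets UnitAddCircle ∧ ¬ HasSubgroup UnitAddCircle) ∧
      ∀ p : ℕ, p.Prime → ContainCantorSets (ZMod p) ∧ ¬ HasSubgroup (ZMod p)) := by
  refine ⟨exists_forcing Om1, martinFor_om1_iff, fun hMA => ?_⟩
  have hMA' : MartinAxiomCard ℵ₁ := martinAxiomAleph1_iff.1 hMA
  have hOm : #Om1 ≤ ℵ₁ := (Cardinal.mk_ord_toType _).le
  have hκ : ℵ₀ ≤ (ℵ₁ : Cardinal.{0}) := aleph0_le_aleph 1
  have h1 : ContainCantorSets UnitAddCircle := fun D hinf hcc =>
    Pool.Agent.K1H57.CCGroup.exists_cantor hMA' hκ hOm D hinf hcc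
  refine ⟨⟨h1, not_hasSubgroup h1⟩, fun p hp => ?_⟩
  have : Fact p.Prime := ⟨hp⟩
  have h2 : ContainCantorSets (ZMod p) := fun D hinf hcc =>
    Pool.Agent.K1H57.CCGroup.exists_cantor' hMA' hκ hOm ZMod.toAddCircle
      continuous_of_discreteTopology (ZMod.toAddCircle_injective p) D hinf hcc
  exact ⟨h2, not_hasSubgroup h2⟩

end Pool.Agent.Results.MP_e377f6_gt.NotATheoremOfZFC
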